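import Pool.Agent.Helper53.SL.St

/-!
# MP_9062f4_nt, project SL, module SIE: Siegel's theorem (the plastic number is the smallest Pisot number)
-/

set_option autoImplicit false

open Polynomial

noncomputable section

namespace Pool.Agent.Helper50.SL

open Pool.Agent.Helper53.SL
open Pool.Agent.Helper96.Salem (IsPisot)

theorem trunc3 (q : ℝ[X]) : ∃ q' : ℝ[X],
    q = C (q.coeff 0) + C (q.coeff 1) * X + C (q.coeff 2) * X ^ 2 + X ^ 3 * q' := by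
  have h : (X : ℝ[X]) ^ 3 ∣ q - (C (q.coeff 0) + C (q.coeff 1) * X + C (q.coeff 2) * X ^ 2) := by
    rw [X_pow_dvd_iff]
    intro d hd
    interval_cases d <;> simp [coeff_X, coeff_C, coeff_X_pow]
  obtain ⟨q', hq'⟩ := h
  exact ⟨q', by linear_combination hq'⟩

theorem rev_lin (t : ℝ) : (X - C t : ℝ[X]).reverse = 1 - C t * X := by
  rw [reverse, natDegree_X_sub_C, reflect_sub, reflect_one_X, reflect_C, pow_one]

theorem alg {c : ℝ} (hc : IsPisot c) : ∃ R : ℝ[X], R.Monic ∧ R.Separable ∧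
    (∀ z : ℂ, aeval z R = 0 → ‖z‖ < 1) ∧
    (minpoly ℤ c).map (Int.castRingHom ℝ) = (X - C c) * R := by
  obtain ⟨hint, hc1, hconj⟩ := hc
  have hroot : IsRoot ((minpoly ℤ c).map (Int.castRingHom ℝ)) c := by
    rw [IsRoot, eval_map, ← algebraMap_int_eq, ← aeval_def]
    exact minpoly.aeval ℤ c
  obtain ⟨R, hR⟩ := dvd_iff_isRoot.2 hroot
  have hPm : ((minpoly ℤ c).map (Int.castRingHom ℝ)).Monic := (minpoly.monic hint).map _
  have hRm : R.Monic := by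
    rw [hR] at hPm
    exact (monic_X_sub_C c).of_mul_monic_left hPm
  have hQ : minpoly ℚ c = (minpoly ℤ c).map (algebraMap ℤ ℚ) :=
    minpoly.isIntegrallyClosed_eq_field_fractions' ℚ hint
  have hPQ : (minpoly ℤ c).map (Int.castRingHom ℝ) = (minpoly ℚ c).map (algebraMap ℚ ℝ) := by
    rw [hQ, map_map]
    congr 1
  have hcQ : IsIntegral ℚ c := hint.tower_top
  have hsep : ((X - C c) * R).Separable := by
    rw [← hR, hPQ]
    exact (minpoly.irreducible hcQ).separable.map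
  have hRc : R.eval c ≠ 0 := by
    obtain ⟨u, v, huv⟩ := hsep.isCoprime
    intro h0
    have h1 := congrArg (eval c) huv
    simp [h0] at h1
  refine ⟨R, hRm, hsep.of_mul_right, ?_, hR⟩
  intro z hz
  refine hconj z ?_ ?_
  · have h1 : aeval z ((minpoly ℚ c).map (algebraMap ℚ ℝ)) = 0 := by
      rw [← hPQ, hR, map_mul, hz, mul_zero]
    rwa [aeval_map_algebraMap] at h1
  · rintro rfl
    apply hRc
    have h1 := aeval_algebraMap_apply ℂ c R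
    have h2 : (algebraMap ℝ ℂ) (aeval c R) = 0 := by rw [← h1]; exact hz
    have h3 := (map_eq_zero (algebraMap ℝ ℂ)).1 h2
    rwa [coe_aeval_eq_eval] at h3

/-- the data of the first three coefficients -/
theorem data {c : ℝ} (hc : IsPisot c) : ∃ (R : ℝ[X]) (φ0 φ1 φ2 : ℝ) (u0 u1 u2 : ℤ) (G : ℝ[X]),
    R.Monic ∧ R.Separable ∧ (∀ z : ℂ, aeval z R = 0 → ‖z‖ < 1) ∧
    (minpoly ℤ c).map (Int.castRingHom ℝ) = (X - C c) * R ∧
    (u0 : ℝ) = -c * φ0 ∧ (u1 : ℝ) = φ0 - c ^ 2 * φ0 - c * φ1 ∧ (u2 : ℝ) = φ1 - c * φ2 + c * u1 ∧ u0 ≠ 0 ∧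
    R = (C φ0 + C φ1 * X + C φ2 * X ^ 2) * R.reverse + X ^ 3 * G := by
  obtain ⟨R, hRm, hRs, hRz, hR⟩ := alg hc
  obtain ⟨hint, hc1, hconj⟩ := hc
  set P := minpoly ℤ c with hP
  have hPm : P.Monic := minpoly.monic hint
  have hP0 : P.coeff 0 ≠ 0 := by
    have hcQ : IsIntegral ℚ c := hint.tower_top
    have h3 := minpoly.coeff_zero_ne_zero hcQ (zero_lt_one.trans hc1).ne'
    rw [minpoly.isIntegrallyClosed_eq_field_fractions' ℚ hint, coeff_map] at h3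
    intro h4
    apply h3
    rw [← hP, h4, map_zero]
  obtain ⟨R', hR'⟩ := trunc3 R
  obtain ⟨S', hS'⟩ := trunc3 R.reverse
  have hs0 : R.reverse.coeff 0 = 1 := by rw [coeff_zero_reverse]; exact hRm
  set a0 := R.coeff 0
  set a1 := R.coeff 1
  set a2 := R.coeff 2
  set s1 := R.reverse.coeff 1
  set s2 := R.reverse.coeff 2
  rw [hs0] at hS'
  set p := P.map (Int.castRingHom ℝ) with hp
  have hpc : ∀ n, p.coeff n = (P.coeff n : ℝ) := fun n => by rw [hp, coeff_map]; rfl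
  have hpd : p.natDegree = P.natDegree := natDegree_map_eq_of_injective Int.cast_injective P
  have hrc : ∀ n, p.reverse.coeff n = (P.coeff (revAt P.natDegree n) : ℝ) := fun n => by
    rw [coeff_reverse, hpc, hpd]
  have hrev : p.reverse = (1 - C c * X) * R.reverse := by
    rw [hR, reverse_mul_of_domain, rev_lin]
  have p0 : (P.coeff 0 : ℝ) = -c * a0 := by
    rw [← hpc, hR]; simp [mul_coeff_zero, a0]
  have p1 : (P.coeff 1 : ℝ) = a0 - c * a1 := by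
    rw [← hpc, hR, sub_mul, coeff_sub, coeff_C_mul, coeff_X_mul]
  have p2 : (P.coeff 2 : ℝ) = a1 - c * a2 := by
    rw [← hpc, hR, sub_mul, coeff_sub, coeff_C_mul, coeff_X_mul]
  have r1 : (P.coeff (revAt P.natDegree 1) : ℝ) = s1 - c := by
    rw [← hrc, hrev, sub_mul, one_mul, mul_assoc, coeff_sub, coeff_C_mul, coeff_X_mul, hs0, mul_one]
  have r2 : (P.coeff (revAt P.natDegree 2) : ℝ) = s2 - c * s1 := by
    rw [← hrc, hrev, sub_mul, one_mul, mul_assoc, coeff_sub, coeff_C_mul, coeff_X_mul]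
  set i0 := P.coeff 0
  set i1 := P.coeff 1
  set i2 := P.coeff 2
  set j1 := P.coeff (revAt P.natDegree 1)
  set j2 := P.coeff (revAt P.natDegree 2)
  refine ⟨R, a0, a1 - a0 * s1, a2 - a0 * s2 - (a1 - a0 * s1) * s1, i0, i1 - i0 * j1,
    i2 - i0 * j2 - (i1 - i0 * j1) * j1,
    R' - (C a0 + C (a1 - a0 * s1) * X + C (a2 - a0 * s2 - (a1 - a0 * s1) * s1) * X ^ 2) * S'
      - (C (a1 - a0 * s1) * C s2 + C (a2 - a0 * s2 - (a1 - a0 * s1) * s1) * C s1)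
      - C (a2 - a0 * s2 - (a1 - a0 * s1) * s1) * C s2 * X,
    hRm, hRs, hRz, hR, p0, ?_, ?_, hP0, ?_⟩
  · push_cast
    rw [p0, p1, r1]
    ring
  · push_cast
    rw [p0, p1, p2, r1, r2]
    ring
  · conv_lhs => rw [hR']
    rw [hS']
    simp only [map_sub, map_mul, map_one]
    ring

/-- the matrix inequality -/
theorem ineq3 (h1 : StSch) {R G : ℝ[X]} {φ0 φ1 φ2 : ℝ} (hm : R.Monic)
    (hz : ∀ z : ℂ, aeval z R = 0 → ‖z‖ < 1)
    (h : R = (C φ0 + C φ1 * X + C φ2 * X ^ 2) * R.reverse + X ^ 3 * G) (x0 x1 x2 : ℝ) :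
    (φ0 * x0) ^ 2 + (φ1 * x0 + φ0 * x1) ^ 2 + (φ2 * x0 + φ1 * x1 + φ0 * x2) ^ 2 ≤ x0 ^ 2 + x1 ^ 2 + x2 ^ 2 := by
  have key := h1 R (C x2 * X ^ 2 + C x1 * X + C x0)
    (C (φ2 * x0 + φ1 * x1 + φ0 * x2) * X ^ 2 + C (φ1 * x0 + φ0 * x1) * X + C (φ0 * x0))
    (G * (C x2 * X ^ 2 + C x1 * X + C x0) + ((C φ2 * C x1 + C φ1 * C x2) + C φ2 * C x2 * X) * R.reverse) 3 hm hz
    (lt_of_le_of_lt natDegree_quadratic_le (by norm_num))
    (lt_of_le_of_lt natDegree_quadratic_le (by norm_num)) (by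
      conv_lhs => rw [h]
      simp only [map_add, map_mul]
      ring)
  have h2 := key.1
  simp only [Finset.sum_range_succ, Finset.sum_range_zero, coeff_add, coeff_C_mul, coeff_X_pow, coeff_X,
    coeff_C, zero_add] at h2
  norm_num at h2
  linarith

theorem c14 {c : ℝ} (hc1 : 1 < c) (hcub : c ^ 3 - c - 1 < 0) : c < 7 / 5 := by
  nlinarith [sq_nonneg (c - 1), sq_nonneg c]

theorem vec_plus {a b d A B D : ℝ} (h : A ^ 2 + B ^ 2 + D ^ 2 ≤ a ^ 2 + b ^ 2 + d ^ 2) :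
    0 ≤ a ^ 2 + b ^ 2 + d ^ 2 + (a * A + b * B + d * D) := by
  nlinarith [sq_nonneg (a + A), sq_nonneg (b + B), sq_nonneg (d + D)]

theorem vec_minus {a b d A B D : ℝ} (h : A ^ 2 + B ^ 2 + D ^ 2 ≤ a ^ 2 + b ^ 2 + d ^ 2) :
    0 ≤ a ^ 2 + b ^ 2 + d ^ 2 - (a * A + b * B + d * D) := by
  nlinarith [sq_nonneg (a - A), sq_nonneg (b - B), sq_nonneg (d - D)]

/-- the symmetric case: `P = ± P.reverse` is impossible -/
theorem case0 (h1 : StSch) {c t : ℝ} {R G : ℝ[X]} {φ0 φ1 φ2 : ℝ} {u0 : ℤ} (hc : IsPisot c) (hc14 : c < 7 / 5)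
    (hm : R.Monic) (hs : R.Separable) (hz : ∀ z : ℂ, aeval z R = 0 → ‖z‖ < 1)
    (hP : (minpoly ℤ c).map (Int.castRingHom ℝ) = (X - C c) * R)
    (hφ : R = (C φ0 + C φ1 * X + C φ2 * X ^ 2) * R.reverse + X ^ 3 * G) (htc : t * c = 1)
    (e0 : φ0 = -t * u0) (e1 : φ1 = u0 * (1 - t ^ 2)) (huu : (u0 : ℝ) ^ 2 = 1) : False := by
  have hc1 : 1 < c := hc.2.1
  have hc0 : c ≠ 0 := (zero_lt_one.trans hc1).ne'
  have ht : t = 1 / c := by field_simp; linarith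
  have ht0 : 0 < t := by rw [ht]; positivity
  have ht1 : t < 1 := by nlinarith
  have hpc : ∀ n, ((X - C c) * R).coeff n = ((minpoly ℤ c).coeff n : ℝ) := fun n => by
    rw [← hP, coeff_map]; rfl
  have key := h1 R (C (-t) * X + C 1) (C (u0 : ℝ) * X + C φ0)
    ((C φ2 - C t * C φ1 - C t * C φ2 * X) * R.reverse + X * (G * (C (-t) * X + C 1))) 2 hm hz
    (lt_of_le_of_lt natDegree_linear_le (by norm_num))
    (lt_of_le_of_lt natDegree_linear_le (by norm_num)) (by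
      conv_lhs => rw [hφ]
      have h2 : (C (u0 : ℝ) : ℝ[X]) = C φ1 - C t * C φ0 := by
        rw [← C_mul, ← C_sub]
        congr 1
        rw [e0, e1]; ring
      rw [h2]
      simp only [map_neg, map_one]
      ring)
  have hG := key.2 (by
    simp only [Finset.sum_range_succ, Finset.sum_range_zero, coeff_add, coeff_C_mul, coeff_X,
      coeff_C, zero_add]
    norm_num
    rw [e0]
    linear_combination (1 + t ^ 2) * huu)
  have hRw : R * (C (-t) * X + C 1) = (C (u0 : ℝ) * X + C φ0) * R.reverse := by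
    have h2 : R * (C (-t) * X + C 1) = (C (u0 : ℝ) * X + C φ0) * R.reverse + X ^ 2 *
        ((C φ2 - C t * C φ1 - C t * C φ2 * X) * R.reverse + X * (G * (C (-t) * X + C 1))) := by
      conv_lhs => rw [hφ]
      have h2 : (C (u0 : ℝ) : ℝ[X]) = C φ1 - C t * C φ0 := by
        rw [← C_mul, ← C_sub]
        congr 1
        rw [e0, e1]; ring
      rw [h2]
      simp only [map_neg, map_one]
      ring
    rw [h2, hG, mul_zero, add_zero]
  have hrev : ((X - C c) * R).reverse = (1 - C c * X) * R.reverse := by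
    rw [reverse_mul_of_domain, rev_lin]
  have htcC : (C t * C c : ℝ[X]) = 1 := by rw [← C_mul, htc, C_1]
  have hsym : (X - C c) * R = C (u0 : ℝ) * ((X - C c) * R).reverse := by
    have hq : (X ^ 2 - (C t + C c) * X + 1 : ℝ[X]) ≠ 0 := by
      intro h2
      have h3 := congrArg (fun q => coeff q 0) h2
      simp at h3
    refine mul_left_cancel₀ hq ?_
    rw [hrev]
    have h2 : (C φ0 : ℝ[X]) = -(C t * C (u0 : ℝ)) := by
      rw [← C_mul, ← C_neg]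
      congr 1
      rw [e0]; ring
    rw [h2] at hRw
    simp only [map_neg, map_one] at hRw
    linear_combination ((X - C c) * (1 - C c * X)) * hRw +
      (-(X * C c * C (u0 : ℝ) * R.reverse) + X ^ 2 * C c * R - X ^ 3 * R + C (u0 : ℝ) * R.reverse) * htcC
  have hpm : ((X - C c) * R).Monic := (monic_X_sub_C c).mul hm
  have hp0 : ((X - C c) * R).coeff 0 = (u0 : ℝ) := by
    rw [hsym, coeff_C_mul, coeff_zero_reverse, hpm.leadingCoeff, mul_one]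
  have hu0 : (u0 : ℝ) ≠ 0 := by
    intro h2
    rw [h2] at huu
    norm_num at huu
  -- all roots of `R` are `t`
  have hroots : ∀ z : ℂ, aeval z R = 0 → z = (t : ℂ) := by
    intro z hzR
    have hz1 := hz z hzR
    have hz0 : z ≠ 0 := by
      rintro rfl
      rw [← coeff_zero_eq_aeval_zero'] at hzR
      have h3 : R.coeff 0 = 0 := (map_eq_zero (algebraMap ℝ ℂ)).1 hzR
      apply hu0
      rw [← hp0, mul_coeff_zero, h3, mul_zero]
    have hzp : eval₂ (algebraMap ℝ ℂ) z ((X - C c) * R) = 0 := by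
      rw [eval₂_mul, ← aeval_def _ R, hzR, mul_zero]
    let _ : Invertible z := invertibleOfNonzero hz0
    have h4 := (eval₂_reverse_eq_zero_iff (algebraMap ℝ ℂ) z ((X - C c) * R)).2 hzp
    rw [invOf_eq_inv] at h4
    have h5 : eval₂ (algebraMap ℝ ℂ) z⁻¹ ((X - C c) * R) = 0 := by
      rw [hsym, eval₂_mul, h4, mul_zero]
    rw [eval₂_mul] at h5
    rcases mul_eq_zero.1 h5 with h6 | h6
    · rw [eval₂_sub, eval₂_X, eval₂_C] at h6
      have h7 : z⁻¹ = (c : ℂ) := sub_eq_zero.1 h6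
      have h8 : z = (c : ℂ)⁻¹ := by rw [← h7, inv_inv]
      rw [h8, ht]
      push_cast
      rw [one_div]
    · exfalso
      have h7 := hz z⁻¹ (by rw [aeval_def]; exact h6)
      rw [norm_inv] at h7
      have h8 : 0 < ‖z‖ := norm_pos_iff.mpr hz0
      have h9 := (inv_lt_one₀ h8).1 h7
      linarith
  have hdeg : R.natDegree ≤ 1 := by
    have h2 : (R.map (algebraMap ℝ ℂ)).roots.card = R.natDegree := by
      rw [IsAlgClosed.card_roots_eq_natDegree, natDegree_map]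
    have hnd : (R.map (algebraMap ℝ ℂ)).roots.Nodup := nodup_roots hs.map
    rw [← h2, ← Multiset.toFinset_card_of_nodup hnd]
    refine Finset.card_le_one.2 fun a ha b hb => ?_
    have hm0 : R.map (algebraMap ℝ ℂ) ≠ 0 := (hm.map _).ne_zero
    have hh : ∀ a : ℂ, a ∈ (R.map (algebraMap ℝ ℂ)).roots.toFinset → a = (t : ℂ) := by
      intro a ha
      rw [Multiset.mem_toFinset, mem_roots hm0, IsRoot, eval_map, ← aeval_def] at ha
      exact hroots a ha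
    rw [hh a ha, hh b hb]
  have hR1 := eq_X_add_C_of_natDegree_le_one hdeg
  rcases Nat.le_one_iff_eq_zero_or_eq_one.1 hdeg with hd | hd
  · have hl : R.coeff 0 = 1 := by
      have := hm.leadingCoeff
      rwa [leadingCoeff, hd] at this
    have h2 : R = 1 := by rw [eq_C_of_natDegree_eq_zero hd, hl, C_1]
    have h3 := hpc 0
    rw [h2, mul_one, coeff_sub, coeff_X_zero, coeff_C_zero, zero_sub] at h3
    have h4 : ((minpoly ℤ c).coeff 0 : ℝ) < -1 := by rw [← h3]; linarith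
    have h5 : (minpoly ℤ c).coeff 0 < -1 := by exact_mod_cast h4
    have h6 : (minpoly ℤ c).coeff 0 ≤ -2 := by omega
    have h7 : ((minpoly ℤ c).coeff 0 : ℝ) ≤ -2 := by exact_mod_cast h6
    linarith
  · have hl : R.coeff 1 = 1 := by
      have := hm.leadingCoeff
      rwa [leadingCoeff, hd] at this
    rw [hl, C_1, one_mul] at hR1
    have h2 := hroots (-(R.coeff 0 : ℝ) : ℂ) (by
      conv_lhs => rw [hR1]
      simp)
    have h3 : -R.coeff 0 = t := by exact_mod_cast h2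
    have h4 := hpc 1
    rw [sub_mul, coeff_sub, coeff_C_mul, coeff_X_mul, hl, mul_one] at h4
    have h5 : ((minpoly ℤ c).coeff 1 : ℝ) < -2 := by
      rw [← h4]
      nlinarith [sq_nonneg (c - 1), mul_pos (sub_pos.2 hc1) (sub_pos.2 hc1)]
    have h6 : (-3 : ℝ) < ((minpoly ℤ c).coeff 1 : ℝ) := by
      rw [← h4]
      linarith
    have h7 : (minpoly ℤ c).coeff 1 < -2 := by exact_mod_cast h5
    have h8 : -3 < (minpoly ℤ c).coeff 1 := by exact_mod_cast h6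
    omega

theorem main (h1 : StSch) {c : ℝ} (hc : IsPisot c) (hcub : c ^ 3 - c - 1 < 0) : False := by
  obtain ⟨R, φ0, φ1, φ2, u0, u1, u2, G, hm, hs, hz, hP, e0, e1, e2, hu0, hφ⟩ := data hc
  have hc1 : 1 < c := hc.2.1
  have key := fun x0 x1 x2 => ineq3 h1 hm hz hφ x0 x1 x2
  have hc0 : c ≠ 0 := (zero_lt_one.trans hc1).ne'
  have hc14 : c < 7 / 5 := c14 hc1 hcub
  -- u0 = ± 1
  have hφ0 : φ0 ^ 2 ≤ 1 := by
    calc φ0 ^ 2 = (φ0 * 0) ^ 2 + (φ1 * 0 + φ0 * 0) ^ 2 + (φ2 * 0 + φ1 * 0 + φ0 * 1) ^ 2 := by ring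
      _ ≤ 0 ^ 2 + 0 ^ 2 + 1 ^ 2 := key 0 0 1
      _ = 1 := by ring
  have hu0' : u0 = 1 ∨ u0 = -1 := by
    have h2 : (u0 : ℝ) ^ 2 < 2 ^ 2 := by
      rw [e0]
      calc (-c * φ0) ^ 2 = c ^ 2 * φ0 ^ 2 := by ring
        _ ≤ c ^ 2 * 1 := mul_le_mul_of_nonneg_left hφ0 (sq_nonneg c)
        _ < 2 ^ 2 := by
          rw [mul_one]
          exact pow_lt_pow_left₀ (by linarith) (by linarith) (by norm_num)
    have h4 := abs_lt_of_sq_lt_sq' h2 (by norm_num)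
    have h5 : -2 < u0 := by exact_mod_cast h4.1
    have h6 : u0 < 2 := by exact_mod_cast h4.2
    omega
  have huu : (u0 : ℝ) ^ 2 = 1 := by
    rcases hu0' with h | h <;> rw [h] <;> norm_num
  obtain ⟨t, ht⟩ : ∃ t, t = 1 / c := ⟨_, rfl⟩
  have htc : t * c = 1 := by rw [ht]; field_simp
  have ht0 : 0 < t := by rw [ht]; positivity
  have ht1 : t < 1 := by rw [ht]; exact (div_lt_one (by linarith)).2 hc1
  -- normalised quantities
  obtain ⟨ψ0, hψ0⟩ : ∃ ψ, ψ = u0 * φ0 := ⟨_, rfl⟩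
  obtain ⟨ψ1, hψ1⟩ : ∃ ψ, ψ = u0 * φ1 := ⟨_, rfl⟩
  obtain ⟨ψ2, hψ2⟩ : ∃ ψ, ψ = u0 * φ2 := ⟨_, rfl⟩
  obtain ⟨v1, hv1⟩ : ∃ v, v = u0 * u1 := ⟨_, rfl⟩
  obtain ⟨v2, hv2⟩ : ∃ v, v = u0 * u2 := ⟨_, rfl⟩
  have hv1' : (v1 : ℝ) = u0 * u1 := by rw [hv1]; push_cast; ring
  have hv2' : (v2 : ℝ) = u0 * u2 := by rw [hv2]; push_cast; ring
  have f0 : ψ0 = -t := by
    have : c * ψ0 = -1 := by rw [hψ0]; linear_combination (u0 : ℝ) * e0 - huu
    have h3 : c * (ψ0 + t) = 0 := by linarith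
    have h4 := (mul_eq_zero.1 h3).resolve_left hc0
    linarith
  have f1 : ψ1 = 1 - t ^ 2 - t * v1 := by
    have h2 : c * ψ1 = ψ0 - c ^ 2 * ψ0 - v1 := by
      rw [hψ1, hψ0, hv1', e1]; ring
    rw [f0] at h2
    have h3 : c * (ψ1 - (1 - t ^ 2 - t * v1)) = 0 := by
      linear_combination h2 + (c + t + v1) * htc
    have h4 := (mul_eq_zero.1 h3).resolve_left hc0
    linarith
  have f2 : ψ2 = t * (ψ1 - v2) + v1 := by
    have h2 : c * ψ2 = ψ1 - v2 + c * v1 := by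
      rw [hψ2, hψ1, hv2', hv1', e2]; ring
    have h3 : c * (ψ2 - (t * (ψ1 - v2) + v1)) = 0 := by
      linear_combination h2 - (ψ1 - v2) * htc
    have h4 := (mul_eq_zero.1 h3).resolve_left hc0
    linarith
  have key' : ∀ x0 x1 x2 : ℝ, (ψ0 * x0) ^ 2 + (ψ1 * x0 + ψ0 * x1) ^ 2 + (ψ2 * x0 + ψ1 * x1 + ψ0 * x2) ^ 2
      ≤ x0 ^ 2 + x1 ^ 2 + x2 ^ 2 := by
    intro x0 x1 x2
    have h2 := key x0 x1 x2
    have e : (ψ0 * x0) ^ 2 + (ψ1 * x0 + ψ0 * x1) ^ 2 + (ψ2 * x0 + ψ1 * x1 + ψ0 * x2) ^ 2 =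
        (u0 : ℝ) ^ 2 * ((φ0 * x0) ^ 2 + (φ1 * x0 + φ0 * x1) ^ 2 + (φ2 * x0 + φ1 * x1 + φ0 * x2) ^ 2) := by
      rw [hψ0, hψ1, hψ2]; ring
    rw [e, huu, one_mul]
    exact h2
  -- the two symmetric forms
  have plus : ∀ y0 y1 y2 : ℝ, 0 ≤ y0 ^ 2 + y1 ^ 2 + y2 ^ 2 + (y0 * (ψ0 * y2) + y1 * (ψ1 * y2 + ψ0 * y1) +
      y2 * (ψ2 * y2 + ψ1 * y1 + ψ0 * y0)) := by
    intro y0 y1 y2
    refine vec_plus ?_
    have h2 := key' y2 y1 y0
    linarith
  have minus : ∀ y0 y1 y2 : ℝ, 0 ≤ y0 ^ 2 + y1 ^ 2 + y2 ^ 2 - (y0 * (ψ0 * y2) + y1 * (ψ1 * y2 + ψ0 * y1) +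
      y2 * (ψ2 * y2 + ψ1 * y1 + ψ0 * y0)) := by
    intro y0 y1 y2
    refine vec_minus ?_
    have h2 := key' y2 y1 y0
    linarith
  have g1 : 0 ≤ 1 - ψ0 ^ 2 + ψ1 := by
    have h2 := key' 0 1 (-ψ0)
    have e : (ψ0 * 0) ^ 2 + (ψ1 * 0 + ψ0 * 1) ^ 2 + (ψ2 * 0 + ψ1 * 1 + ψ0 * -ψ0) ^ 2 =
        ψ0 ^ 2 + (ψ1 - ψ0 ^ 2) ^ 2 := by ring
    have e' : (0 : ℝ) ^ 2 + 1 ^ 2 + (-ψ0) ^ 2 = 1 + ψ0 ^ 2 := by ring
    rw [e, e'] at h2
    have h3 := (abs_le_of_sq_le_sq' (a := ψ1 - ψ0 ^ 2) (b := 1) (by linarith) (by norm_num)).1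
    linarith
  have g2 : 0 ≤ 1 - ψ0 ^ 2 - ψ1 := by
    have h2 := key' 0 1 ψ0
    have e : (ψ0 * 0) ^ 2 + (ψ1 * 0 + ψ0 * 1) ^ 2 + (ψ2 * 0 + ψ1 * 1 + ψ0 * ψ0) ^ 2 =
        ψ0 ^ 2 + (ψ1 + ψ0 ^ 2) ^ 2 := by ring
    have e' : (0 : ℝ) ^ 2 + 1 ^ 2 + ψ0 ^ 2 = 1 + ψ0 ^ 2 := by ring
    rw [e, e'] at h2
    have h3 := (abs_le_of_sq_le_sq' (a := ψ1 + ψ0 ^ 2) (b := 1) (by linarith) (by norm_num)).2
    linarith
  have hv10 : 0 ≤ v1 := by
    have h2 : 0 ≤ t * (v1 : ℝ) := by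
      rw [f0, f1] at g2
      have e : (-t) ^ 2 = t ^ 2 := by ring
      rw [e] at g2
      linarith
    have h3 : (0 : ℝ) ≤ v1 := nonneg_of_mul_nonneg_right h2 ht0
    exact_mod_cast h3
  have hv12 : v1 < 2 := by
    by_contra hcon
    push Not at hcon
    have h2 : (2 : ℝ) ≤ v1 := by exact_mod_cast hcon
    have h3 : t * 2 ≤ t * v1 := mul_le_mul_of_nonneg_left h2 ht0.le
    rw [f0, f1] at g1
    have h4 : t ^ 2 + t ≤ 1 := by
      have e : (-t) ^ 2 = t ^ 2 := by ring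
      rw [e] at g1
      linarith
    have h5 : 1 + c ≤ c ^ 2 := by
      have h6 : (t ^ 2 + t) * c ^ 2 ≤ 1 * c ^ 2 := mul_le_mul_of_nonneg_right h4 (by positivity)
      have h7 : (t ^ 2 + t) * c ^ 2 = 1 + c := by
        linear_combination (t * c + 1 + c) * htc
      linarith
    have h8 := mul_le_mul_of_nonneg_left h5 (by linarith : (0 : ℝ) ≤ c)
    have e1 : c * (1 + c) = c + c ^ 2 := by ring
    have e2 : c * c ^ 2 = c ^ 3 := by ring
    rw [e1, e2] at h8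
    linarith
  have hv : v1 = 0 ∨ v1 = 1 := by omega
  rcases hv with h0 | h0
  · refine case0 h1 hc hc14 hm hs hz hP hφ htc ?_ ?_ huu
    · linear_combination (u0 : ℝ) * f0 - (u0 : ℝ) * hψ0 - φ0 * huu
    · rw [h0] at f1
      push_cast at f1
      linear_combination (u0 : ℝ) * f1 - (u0 : ℝ) * hψ1 - φ1 * huu
  · have f1' : ψ1 = 1 - t - t ^ 2 := by rw [f1, h0]; push_cast; ring
    have f2' : ψ2 = 1 + t - t ^ 2 - t ^ 3 - t * v2 := by rw [f2, f1', h0]; push_cast; ring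
    have Q1 : 0 ≤ (1 + ψ0) * ((1 + ψ0) * (1 + ψ2 - ψ0 ^ 2) - ψ1 ^ 2) := by
      have h2 := plus (-ψ0 * (1 + ψ0)) (-ψ1) (1 + ψ0)
      have e : (-ψ0 * (1 + ψ0)) ^ 2 + (-ψ1) ^ 2 + (1 + ψ0) ^ 2 + ((-ψ0 * (1 + ψ0)) * (ψ0 * (1 + ψ0)) +
          (-ψ1) * (ψ1 * (1 + ψ0) + ψ0 * (-ψ1)) +
          (1 + ψ0) * (ψ2 * (1 + ψ0) + ψ1 * (-ψ1) + ψ0 * (-ψ0 * (1 + ψ0)))) =
          (1 + ψ0) * ((1 + ψ0) * (1 + ψ2 - ψ0 ^ 2) - ψ1 ^ 2) := by ring
      rw [← e]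
      exact h2
    have Q2 : 0 ≤ (1 - ψ0) * ((1 - ψ0) * (1 - ψ2 - ψ0 ^ 2) - ψ1 ^ 2) := by
      have h2 := minus (ψ0 * (1 - ψ0)) ψ1 (1 - ψ0)
      have e : (ψ0 * (1 - ψ0)) ^ 2 + ψ1 ^ 2 + (1 - ψ0) ^ 2 - ((ψ0 * (1 - ψ0)) * (ψ0 * (1 - ψ0)) +
          ψ1 * (ψ1 * (1 - ψ0) + ψ0 * ψ1) +
          (1 - ψ0) * (ψ2 * (1 - ψ0) + ψ1 * ψ1 + ψ0 * (ψ0 * (1 - ψ0)))) =
          (1 - ψ0) * ((1 - ψ0) * (1 - ψ2 - ψ0 ^ 2) - ψ1 ^ 2) := by ring
      rw [← e]
      exact h2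
    rw [f0] at Q1 Q2
    have Q1' : 0 ≤ (1 + -t) * (1 + ψ2 - (-t) ^ 2) - ψ1 ^ 2 :=
      nonneg_of_mul_nonneg_right Q1 (by linarith)
    have Q2' : 0 ≤ (1 - -t) * (1 - ψ2 - (-t) ^ 2) - ψ1 ^ 2 :=
      nonneg_of_mul_nonneg_right Q2 (by linarith)
    rcases le_or_gt v2 0 with hle | hgt
    · have h2 : (v2 : ℝ) ≤ 0 := by exact_mod_cast hle
      have h3 : t * v2 ≤ 0 := mul_nonpos_of_nonneg_of_nonpos ht0.le h2
      have h4 : 0 ≤ (1 + t) * (1 - ψ2 - t ^ 2) := by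
        have e : (1 - -t) * (1 - ψ2 - (-t) ^ 2) = (1 + t) * (1 - ψ2 - t ^ 2) := by ring
        rw [e] at Q2'
        linarith [sq_nonneg ψ1]
      have h5 : 0 ≤ 1 - ψ2 - t ^ 2 := nonneg_of_mul_nonneg_right h4 (by linarith)
      have h6 : 0 < t * ((1 - t) * (1 + t)) := mul_pos ht0 (mul_pos (by linarith) (by linarith))
      have e : t * ((1 - t) * (1 + t)) = t - t ^ 3 := by ring
      rw [f2'] at h5
      rw [e] at h6
      linarith
    · have h2 : (1 : ℝ) ≤ v2 := by exact_mod_cast hgt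
      have h3 : t * 1 ≤ t * v2 := mul_le_mul_of_nonneg_left h2 ht0.le
      have h4 : (1 - t) * (1 + ψ2 - t ^ 2) ≤ (1 - t) * (2 - 2 * t ^ 2 - t ^ 3) :=
        mul_le_mul_of_nonneg_left (by rw [f2']; linarith) (by linarith)
      have h5 : 0 ≤ 1 - t ^ 2 - t ^ 3 := by
        rw [f1'] at Q1'
        have e1 : (1 + -t) * (1 + ψ2 - (-t) ^ 2) = (1 - t) * (1 + ψ2 - t ^ 2) := by ring
        have e2 : (1 - t) * (2 - 2 * t ^ 2 - t ^ 3) - (1 - t - t ^ 2) ^ 2 = 1 - t ^ 2 - t ^ 3 := by ring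
        rw [e1] at Q1'
        linarith
      have h6 : 0 ≤ (1 - t ^ 2 - t ^ 3) * c ^ 3 := mul_nonneg h5 (by positivity)
      have h7 : (1 - t ^ 2 - t ^ 3) * c ^ 3 = c ^ 3 - c - 1 := by
        linear_combination (-(t * c ^ 2 + c) - (t ^ 2 * c ^ 2 + t * c + 1)) * htc
      linarith

/-- MODULE SIE -/
theorem hSie (h1 : StSch) : StSie := by
  intro c θ hc hθ
  by_contra hlt
  push Not at hlt
  have hc1 : 1 < c := hc.2.1
  refine main h1 hc ?_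
  have h2 : 0 < (θ - c) * (θ ^ 2 + θ * c + c ^ 2 - 1) := mul_pos (by linarith) (by nlinarith)
  nlinarith

end Pool.Agent.Helper50.SL

end
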